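import Pool.Agent.H178R3.GamVert

/-!
# The bound `L(P) ≥ Γ_P + 1` does not force integral closedness

The convex hull of the eight points `(0,0,0), (0,0,1), (1,0,0), (1,0,1), (0,1,0), (0,1,1),
(1,1,4), (1,1,5)` is a three-dimensional lattice polytope with `L(P) = 1` and `Γ_P = 0` which is
not integrally closed: `(1,1,3)` lies in `2P` but is not the sum of two lattice points of `P`.
-/

set_option autoImplicit false

open Set Pointwise Pool.Agent.H178R3.Gam

namespace Pool.Agent.Results.MP_8f98a9_co.GammaBound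

theorem isLatticePolytope_PP : IsLatticePolytope PP :=
  ⟨range fun i => toR (V i), finite_range _, by rintro _ ⟨i, rfl⟩; exact isLat_toR _, rfl⟩

theorem interior_PP : (interior PP).Nonempty := by
  let U : Set (Fin 3 → ℝ) := {p | 0 < p 0 ∧ 0 < p 1 ∧ 0 < p 2 ∧ p 0 + p 1 + p 2 < 1}
  have hU : IsOpen U := by
    apply IsOpen.and (isOpen_lt (by fun_prop) (by fun_prop))
    apply IsOpen.and (isOpen_lt (by fun_prop) (by fun_prop))
    apply IsOpen.and (isOpen_lt (by fun_prop) (by fun_prop))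
    exact isOpen_lt (by fun_prop) (by fun_prop)
  have hsub : U ⊆ PP := by
    rintro p ⟨h0, h1, h2, h3⟩
    have hconv : Convex ℝ PP := convex_convexHull ℝ _
    let w : Fin 4 → ℝ := ![1 - (p 0 + p 1 + p 2), p 0, p 1, p 2]
    let j : Fin 4 → Fin 8 := ![0, 2, 4, 1]
    have hp : p = ∑ t, w t • toR (V (j t)) := by
      rw [Fin.sum_univ_four]
      funext i
      fin_cases i <;> simp [w, j, toR, V]
    rw [hp]
    apply hconv.sum_mem
    · intro t _
      fin_cases t
      · show 0 ≤ 1 - (p 0 + p 1 + p 2)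
        linarith
      · exact h0.le
      · exact h1.le
      · exact h2.le
    · rw [Fin.sum_univ_four]
      show 1 - (p 0 + p 1 + p 2) + p 0 + p 1 + p 2 = 1
      ring
    · intro t _
      exact V_mem _
  refine ⟨fun _ => 1 / 4, mem_interior.2 ⟨U, hsub, hU, ?_⟩⟩
  refine ⟨?_, ?_, ?_, ?_⟩ <;> norm_num

theorem isGamma_PP : IsGamma PP 0 := by
  refine ⟨?_, ?_, ?_⟩
  · intro x hx
    obtain ⟨i, rfl⟩ := ext_V hx
    exact ⟨0, gamma_vertex i⟩
  · exact ⟨_, V_ext 0, gamma_vertex 0⟩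
  · rintro d ⟨x, hx, hd⟩
    obtain ⟨i, rfl⟩ := ext_V hx
    rw [hd.unique (gamma_vertex i)]

/-- The coordinates of a point of the polytope satisfy the facet inequalities. -/
theorem PP_ineq {p : Fin 3 → ℝ} (hp : p ∈ PP) (a : Fin 3 → ℤ) (c : ℤ)
    (h : ∀ i, c ≤ idot a (V i)) : (c : ℝ) ≤ dot a p := by
  obtain ⟨w, hw0, hw1, rfl⟩ := mem_PP hp
  rw [map_sum]
  have : (c : ℝ) = ∑ i, w i * c := by rw [← Finset.sum_mul, hw1, one_mul]
  rw [this]
  apply Finset.sum_le_sum
  intro i _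
  rw [map_smul, dot_toR, smul_eq_mul]
  exact mul_le_mul_of_nonneg_left (by exact_mod_cast h i) (hw0 i)

/-- Lattice points of the polytope. -/
theorem PP_lat {v : Fin 3 → ℤ} (hv : toR v ∈ PP) :
    0 ≤ v 0 ∧ v 0 ≤ 1 ∧ 0 ≤ v 1 ∧ v 1 ≤ 1 ∧ 0 ≤ v 2 ∧ 4 * v 0 + 4 * v 1 - 4 ≤ v 2 ∧
      v 2 ≤ 1 + 4 * v 0 ∧ v 2 ≤ 1 + 4 * v 1 := by
  have conv : ∀ (a : Fin 3 → ℤ) (c : ℤ), (∀ i, c ≤ idot a (V i)) → c ≤ idot a v := by
    intro a c h
    have := PP_ineq hv a c h
    rw [dot_toR] at this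
    exact_mod_cast this
  have h1 := conv ![1, 0, 0] 0 (by decide)
  have h2 := conv ![-1, 0, 0] (-1) (by decide)
  have h3 := conv ![0, 1, 0] 0 (by decide)
  have h4 := conv ![0, -1, 0] (-1) (by decide)
  have h5 := conv ![0, 0, 1] 0 (by decide)
  have h6 := conv ![-4, -4, 1] (-4) (by decide)
  have h7 := conv ![4, 0, -1] (-1) (by decide)
  have h8 := conv ![0, 4, -1] (-1) (by decide)
  simp [idot, Fin.sum_univ_three] at h1 h2 h3 h4 h5 h6 h7 h8
  refine ⟨?_, ?_, ?_, ?_, ?_, ?_, ?_, ?_⟩ <;> linarith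

theorem seg_lat {i j : Fin 8} {z : Fin 3 → ℝ} (hz : z ∈ segment ℝ (toR (V i)) (toR (V j)))
    (hl : IsLat z) : ∃ v : Fin 3 → ℤ, z = toR v ∧ v ∈ Finset.Icc (![0, 0, 0] : Fin 3 → ℤ)
      ![1, 1, 5] := by
  obtain ⟨v, rfl⟩ := exists_toR hl
  have hv : toR v ∈ PP := (convex_convexHull ℝ _).segment_subset (V_mem i) (V_mem j) hz
  obtain ⟨h1, h2, h3, h4, h5, h6, h7, h8⟩ := PP_lat hv
  refine ⟨v, rfl, ?_⟩
  rw [Finset.mem_Icc, Pi.le_def, Pi.le_def]
  constructor
  · intro k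
    fin_cases k <;> simp <;> omega
  · intro k
    fin_cases k <;> simp <;> omega

theorem seg_finite (i j : Fin 8) :
    {z | z ∈ segment ℝ (toR (V i)) (toR (V j)) ∧ IsLat z}.Finite := by
  apply ((Finset.Icc (![0, 0, 0] : Fin 3 → ℤ) ![1, 1, 5]).finite_toSet.image toR).subset
  rintro z ⟨hz, hl⟩
  obtain ⟨v, rfl, hv⟩ := seg_lat hz hl
  exact ⟨v, hv, rfl⟩

theorem isMinLength_PP : IsMinLength PP 1 := by
  constructor
  · refine ⟨toR (V 0), toR (V 1), isEdge_of (0, 1, ![1, 1, 0], 0) (by decide), ?_⟩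
    have : {z | z ∈ segment ℝ (toR (V 0)) (toR (V 1)) ∧ IsLat z} = {toR (V 0), toR (V 1)} := by
      ext z
      constructor
      · rintro ⟨hz, hl⟩
        obtain ⟨v, rfl⟩ := exists_toR hl
        obtain ⟨s, t, hs, ht, hst, h⟩ := hz
        have e0 := congrFun h 0
        have e1 := congrFun h 1
        have e2 := congrFun h 2
        simp [toR, V] at e0 e1 e2
        have hv0 : v 0 = 0 := by exact_mod_cast e0.symm
        have hv1 : v 1 = 0 := by exact_mod_cast e1.symm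
        have h1 : (0 : ℝ) ≤ v 2 := by linarith
        have h2 : (v 2 : ℝ) ≤ 1 := by linarith
        have h3 : 0 ≤ v 2 := by exact_mod_cast h1
        have h4 : v 2 ≤ 1 := by exact_mod_cast h2
        have h5 : v 2 = 0 ∨ v 2 = 1 := by omega
        rcases h5 with h5 | h5
        · left
          congr 1
          funext k
          fin_cases k <;> simp [V, hv0, hv1, h5]
        · right
          show toR v = toR (V 1)
          congr 1
          funext k
          fin_cases k <;> simp [V, hv0, hv1, h5]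
      · rintro (rfl | rfl)
        · exact ⟨left_mem_segment _ _ _, isLat_toR _⟩
        · exact ⟨right_mem_segment _ _ _, isLat_toR _⟩
    rw [latLength, this, ncard_pair]
    intro h
    exact absurd (V_inj (toR_inj h)) (by decide)
  · rintro l ⟨x, y, hxy, rfl⟩
    obtain ⟨i, rfl⟩ := ext_V hxy.2.1
    obtain ⟨j, rfl⟩ := ext_V hxy.2.2.1
    rw [latLength]
    have h2 : ({toR (V i), toR (V j)} : Set (Fin 3 → ℝ)).ncard = 2 := ncard_pair hxy.1
    have h3 := ncard_le_ncard (s := {toR (V i), toR (V j)})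
      (t := {z | z ∈ segment ℝ (toR (V i)) (toR (V j)) ∧ IsLat z}) (by
        rintro z (rfl | rfl)
        · exact ⟨left_mem_segment _ _ _, isLat_toR _⟩
        · exact ⟨right_mem_segment _ _ _, isLat_toR _⟩) (seg_finite i j)
    omega

theorem not_closed : ¬ IntegrallyClosed PP := by
  intro h
  have h1 := h 1 le_rfl
  have hmem : toR ![1, 1, 3] ∈ (((1 + 1 : ℕ) : ℝ) • PP) ∩ {x | IsLat x} := by
    refine ⟨?_, isLat_toR _⟩
    have hconv : Convex ℝ PP := convex_convexHull ℝ _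
    refine ⟨∑ t : Fin 4, (1 / 4 : ℝ) • toR (V ((![0, 3, 5, 6] : Fin 4 → Fin 8) t)), ?_, ?_⟩
    · apply hconv.sum_mem
      · intro t _
        norm_num
      · simp
      · intro t _
        exact V_mem _
    · rw [Fin.sum_univ_four]
      funext i
      fin_cases i <;> simp [toR, V] <;> norm_num
  rw [← h1] at hmem
  obtain ⟨x, ⟨hx, hxl⟩, y, ⟨hy, hyl⟩, hxy⟩ := hmem
  rw [Nat.cast_one, one_smul] at hy
  obtain ⟨u, rfl⟩ := exists_toR hxl
  obtain ⟨v, rfl⟩ := exists_toR hyl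
  obtain ⟨a1, a2, a3, a4, a5, a6, a7, a8⟩ := PP_lat hx
  obtain ⟨b1, b2, b3, b4, b5, b6, b7, b8⟩ := PP_lat hy
  have hxy' : toR (u + v) = toR ![1, 1, 3] := by rw [toR_add]; exact hxy
  have e := toR_inj hxy'
  have e0 : u 0 + v 0 = 1 := congrFun e 0
  have e1 : u 1 + v 1 = 1 := congrFun e 1
  have e2 : u 2 + v 2 = 3 := congrFun e 2
  have c0 : u 0 = 0 ∨ u 0 = 1 := by omega
  have c1 : u 1 = 0 ∨ u 1 = 1 := by omega
  rcases c0 with c0 | c0 <;> rcases c1 with c1 | c1 <;> omega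

/-- **Negative answer to Q1.** There is a full-dimensional lattice polytope `P ⊆ ℝ^3` with
`L(P) = 1` and `Γ_P = 0`, so that `L(P) ≥ Γ_P + 1`, which is not integrally closed. -/
theorem result : ∃ (P : Set (Fin 3 → ℝ)), IsLatticePolytope P ∧ (interior P).Nonempty ∧
    IsMinLength P 1 ∧ IsGamma P 0 ∧ ¬ IntegrallyClosed P :=
  ⟨PP, isLatticePolytope_PP, interior_PP, isMinLength_PP, isGamma_PP, not_closed⟩

end Pool.Agent.Results.MP_8f98a9_co.GammaBound
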